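import Pool.Agent.H87.SLO.Gen

/-!
# Tuples of samples of one line

`tup p L N` is the law of `N + 1` samples which are independent given the line `L`, the line having
its law under `p`.
-/

set_option autoImplicit false

namespace Pool.SLO

open Finset Real
open Pool.Agent.H49.Ent Pool.Agent.H32.Dense Pool.STK Pool.KAF Pool.KVA

variable {Ω Λ τ : Type} [Fintype Ω]

/-- Tuples of samples of one line. -/
noncomputable def tup (p : Ω → ℝ) (L : Ω → Λ) (N : ℕ) (v : Fin (N + 1) → Ω) : ℝ :=
  p (v 0) * ∏ j : Fin N, cond p L (L (v 0)) (v j.succ)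

variable {p : Ω → ℝ} {L : Ω → Λ}

open Classical in
/-- The symmetric form. -/
theorem tup_eq (p : Ω → ℝ) (L : Ω → Λ) (N : ℕ) (v : Fin (N + 1) → Ω) :
    tup p L N v = if ∀ j, L (v j) = L (v 0) then (∏ j, p (v j)) / law p L (L (v 0)) ^ N else 0 := by
  unfold tup
  have h1 : ∀ j : Fin N, cond p L (L (v 0)) (v j.succ) =
      if L (v j.succ) = L (v 0) then p (v j.succ) / law p L (L (v 0)) else 0 := fun j => by
    unfold Pool.Agent.H49.Ent.cond
    split_ifs <;> rfl
  simp only [h1]
  by_cases h : ∀ j, L (v j) = L (v 0)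
  · rw [if_pos h, Fin.prod_univ_succ, mul_div_assoc]
    congr 1
    have h2 : ∀ j ∈ (Finset.univ : Finset (Fin N)),
        (if L (v j.succ) = L (v 0) then p (v j.succ) / law p L (L (v 0)) else 0) =
        p (v j.succ) / law p L (L (v 0)) := fun j _ => if_pos (h j.succ)
    rw [Finset.prod_congr rfl h2, Finset.prod_div_distrib, Finset.prod_const, Finset.card_univ,
      Fintype.card_fin]
  · rw [if_neg h]
    push Not at h
    obtain ⟨j, hj⟩ := h
    rcases Fin.eq_zero_or_eq_succ j with rfl | ⟨j, rfl⟩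
    · exact absurd rfl hj
    · rw [Finset.prod_eq_zero (Finset.mem_univ j) (if_neg hj), mul_zero]

open Classical in
/-- A mixture of product laws. -/
theorem tup_mix (hp : ∀ ω, 0 ≤ p ω) (L : Ω → Λ) (N : ℕ) (v : Fin (N + 1) → Ω) :
    tup p L N v = ∑ z ∈ Finset.univ.image L, law p L z * ∏ j, cond p L z (v j) := by
  have h1 : ∀ (z : Λ) (ω : Ω), cond p L z ω = if L ω = z then p ω / law p L z else 0 := fun z ω => by
    unfold Pool.Agent.H49.Ent.cond
    split_ifs <;> rfl
  rw [Finset.sum_eq_single_of_mem (L (v 0)) (Finset.mem_image_of_mem _ (Finset.mem_univ _))]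
  · rw [Fin.prod_univ_succ, ← mul_assoc]
    unfold tup
    congr 1
    rw [h1, if_pos rfl]
    rcases (hp (v 0)).eq_or_lt with h0 | h0
    · rw [← h0]
      simp
    · have := law_pos hp L h0
      field_simp
  · intro z _ hz
    rw [Fin.prod_univ_succ, h1, if_neg (Ne.symm hz)]
    simp

theorem tup_nonneg (hp : ∀ ω, 0 ≤ p ω) (L : Ω → Λ) (N : ℕ) (v : Fin (N + 1) → Ω) :
    0 ≤ tup p L N v :=
  mul_nonneg (hp _) (Finset.prod_nonneg fun _ _ => cond_nonneg hp L _ _)

theorem tup_pos_iff (hp : ∀ ω, 0 ≤ p ω) (L : Ω → Λ) (N : ℕ) (v : Fin (N + 1) → Ω) :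
    0 < tup p L N v ↔ (∀ j, 0 < p (v j)) ∧ ∀ j, L (v j) = L (v 0) := by
  classical
  rw [tup_eq p]
  constructor
  · intro h
    split_ifs at h with h1
    · refine ⟨fun j => ?_, h1⟩
      rcases (hp (v j)).eq_or_lt with h0 | h0
      · rw [Finset.prod_eq_zero (Finset.mem_univ j) h0.symm, zero_div] at h
        exact absurd h (lt_irrefl _)
      · exact h0
    · exact absurd h (lt_irrefl _)
  · rintro ⟨h1, h2⟩
    rw [if_pos h2]
    exact div_pos (Finset.prod_pos fun j _ => h1 j) (pow_pos (law_pos hp L (h1 0)) _)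

/-- Sums of products. -/
theorem sum_pi_prod {N : ℕ} (f : Fin N → Ω → ℝ) :
    ∑ v : Fin N → Ω, ∏ j, f j (v j) = ∏ j, ∑ x, f j x := by
  classical
  rw [Finset.prod_univ_sum, Fintype.piFinset_univ]

/-- **Sub-tuples**: any injective choice of coordinates. -/
theorem tup_sub (hp : ∀ ω, 0 ≤ p ω) (L : Ω → Λ) {M N : ℕ} (σ : Fin (M + 1) → Fin (N + 1))
    (hσ : Function.Injective σ) : Marg (tup p L N) (tup p L M) (fun v => v ∘ σ) := by
  classical
  intro w
  set F : Λ → (Fin (N + 1) → Ω) → Fin (N + 1) → ℝ := fun z v j =>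
    if ∃ i, σ i = j ∧ v j ≠ w i then 0 else cond p L z (v j) with hF
  rw [tup_mix hp L M w]
  refine (Finset.sum_congr rfl fun v _ => (?_ : _ =
      ∑ z ∈ Finset.univ.image L, law p L z * ∏ j, F z v j)).trans ?_
  · by_cases hv : v ∘ σ = w
    · rw [if_pos hv, tup_mix hp]
      refine Finset.sum_congr rfl fun z _ => ?_
      congr 1
      refine Finset.prod_congr rfl fun j _ => ?_
      simp only [hF]
      rw [if_neg]
      rintro ⟨i, rfl, h2⟩
      exact h2 (congrFun hv i)
    · rw [if_neg hv]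
      symm
      refine Finset.sum_eq_zero fun z _ => ?_
      obtain ⟨i, hi⟩ := Function.ne_iff.1 hv
      have h0 : F z v (σ i) = 0 := if_pos ⟨i, rfl, hi⟩
      rw [Finset.prod_eq_zero (Finset.mem_univ (σ i)) h0, mul_zero]
  simp only [hF]
  rw [Finset.sum_comm]
  refine Finset.sum_congr rfl fun z _ => ?_
  rw [← Finset.mul_sum]
  by_cases hz : law p L z = 0
  · rw [hz, zero_mul, zero_mul]
  congr 1
  rw [sum_pi_prod fun j x => if ∃ i, σ i = j ∧ x ≠ w i then 0 else cond p L z x]
  have h2 : ∀ j, ∑ x, (if ∃ i, σ i = j ∧ x ≠ w i then 0 else cond p L z x) =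
      if h : ∃ i, σ i = j then cond p L z (w h.choose) else 1 := by
    intro j
    by_cases h : ∃ i, σ i = j
    · rw [dif_pos h]
      rw [Finset.sum_eq_single (w h.choose)]
      · rw [if_neg]
        rintro ⟨i, hi, h3⟩
        have : i = h.choose := hσ (hi.trans h.choose_spec.symm)
        exact h3 (by rw [this])
      · intro x _ hx
        exact if_pos ⟨h.choose, h.choose_spec, hx⟩
      · intro h'
        exact absurd (Finset.mem_univ _) h'
    · rw [dif_neg h]
      have h3 : ∀ x ∈ (Finset.univ : Finset Ω),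
          (if ∃ i, σ i = j ∧ x ≠ w i then 0 else cond p L z x) = cond p L z x := by
        intro x _
        rw [if_neg]
        rintro ⟨i, hi, -⟩
        exact h ⟨i, hi⟩
      rw [Finset.sum_congr rfl h3]
      exact sum_cond p L hz
  rw [Finset.prod_congr rfl fun j _ => h2 j]
  rw [← Finset.prod_subset (Finset.subset_univ (Finset.univ.image σ))]
  · rw [Finset.prod_image (fun i _ i' _ h => hσ h)]
    refine Finset.prod_congr rfl fun i _ => ?_
    have h : ∃ i', σ i' = σ i := ⟨i, rfl⟩
    rw [dif_pos h]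
    congr 1
    congr 1
    exact hσ h.choose_spec
  · intro j _ hj
    rw [dif_neg]
    rintro ⟨i, rfl⟩
    exact hj (Finset.mem_image_of_mem _ (Finset.mem_univ i))

/-- Symmetry. -/
theorem tup_perm (hp : ∀ ω, 0 ≤ p ω) (L : Ω → Λ) {N : ℕ} (σ : Equiv.Perm (Fin (N + 1))) :
    Marg (tup p L N) (tup p L N) (fun v => v ∘ σ) :=
  tup_sub hp L σ σ.injective

theorem tup_zero (p : Ω → ℝ) (L : Ω → Λ) (v : Fin 1 → Ω) : tup p L 0 v = p (v 0) := by
  unfold tup
  simp

/-- Every coordinate has the law `p`. -/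
theorem tup_marg (hp : ∀ ω, 0 ≤ p ω) (L : Ω → Λ) (N : ℕ) (j : Fin (N + 1)) :
    Marg (tup p L N) p (fun v => v j) := by
  classical
  have h1 := tup_sub hp L (M := 0) (N := N) (fun _ => j) (fun a b _ => Fin.ext (by omega))
  have h2 : Marg (tup p L 0) p (fun v => v 0) := by
    intro ω
    rw [Finset.sum_eq_single (fun _ => ω)]
    · rw [if_pos rfl, tup_zero]
    · intro v _ hv
      rw [if_neg]
      intro h
      apply hv
      funext i
      rw [show i = 0 from Fin.ext (by omega)]
      exact h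
    · intro h
      exact absurd (Finset.mem_univ _) h
  exact h1.comp h2

theorem tup_isLaw (hp : IsLaw p) (L : Ω → Λ) (N : ℕ) : IsLaw (tup p L N) := by
  refine ⟨fun v => tup_nonneg hp.nonneg L N v, ?_⟩
  rw [(tup_marg hp.nonneg L N 0).sum]
  exact hp.sum_one

/-- The line of the tuple. -/
theorem tup_law (hp : ∀ ω, 0 ≤ p ω) (L : Ω → Λ) (N : ℕ) (z : Λ) :
    law (tup p L N) (fun v => L (v 0)) z = law p L z :=
  (tup_marg hp L N 0).law L z

/-- Pairs. -/
theorem tup_two (hp : ∀ ω, 0 ≤ p ω) (L : Ω → Λ) {N : ℕ} (i j : Fin (N + 1)) (hij : i ≠ j) :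
    Marg (tup p L N) (dbl p L) (fun v => (v i, v j)) := by
  classical
  have h1 := tup_sub hp L (M := 1) (N := N) ![i, j] (by
    intro a b h
    fin_cases a <;> fin_cases b <;> simp_all)
  have h2 : Marg (tup p L 1) (dbl p L) (fun v => (v 0, v 1)) := by
    rintro ⟨a, b⟩
    rw [Finset.sum_eq_single ![a, b]]
    · rw [if_pos (by simp)]
      unfold tup dbl glue
      rw [Fin.prod_univ_one]
      have e3 : cond p L (L a) b = if L b = L a then p b / law p L (L a) else 0 := by
        unfold Pool.Agent.H49.Ent.cond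
        split_ifs <;> rfl
      show p a * cond p L (L a) b = if L a = L b then p a * p b / law p L (L a) else 0
      rw [e3]
      by_cases h : L a = L b
      · rw [if_pos h.symm, if_pos h]
        ring
      · rw [if_neg (Ne.symm h), if_neg h, mul_zero]
    · intro v _ hv
      rw [if_neg]
      intro h
      apply hv
      simp only [Prod.mk.injEq] at h
      funext i
      fin_cases i
      · exact h.1
      · exact h.2
    · intro h
      exact absurd (Finset.mem_univ _) h
  have h3 := h1.comp h2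
  simpa using h3

/-- One more sample. -/
theorem tup_snoc (hp : ∀ ω, 0 ≤ p ω) (L : Ω → Λ) (N : ℕ) :
    Marg (tup p L (N + 1)) (glue (tup p L N) p (fun v => L (v 0)) L)
      (fun v => (Fin.init v, v (Fin.last (N + 1)))) := by
  classical
  rintro ⟨w, ω⟩
  rw [Finset.sum_eq_single (Fin.snoc (α := fun _ => Ω) w ω)]
  · rw [if_pos (by simp)]
    have e4 : law (tup p L N) (fun v => L (v 0)) (L (w 0)) = law p L (L (w 0)) :=
      tup_law hp L N _
    have e5 : glue (tup p L N) p (fun v => L (v 0)) L (w, ω) =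
        if L (w 0) = L ω then tup p L N w * p ω / law p L (L (w 0)) else 0 := by
      unfold glue
      simp only [e4]
    rw [e5]
    unfold tup
    rw [Fin.prod_univ_castSucc]
    have e0 : (Fin.snoc (α := fun _ => Ω) w ω : Fin (N + 2) → Ω) 0 = w 0 :=
      Fin.snoc_castSucc (α := fun _ => Ω) ω w 0
    have e1 : (Fin.snoc (α := fun _ => Ω) w ω : Fin (N + 2) → Ω) (Fin.last N).succ = ω :=
      Fin.snoc_last (α := fun _ => Ω) ω w
    have e2 : ∀ j : Fin N, (Fin.snoc (α := fun _ => Ω) w ω : Fin (N + 2) → Ω) j.castSucc.succ =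
        w j.succ := by
      intro j
      have := Fin.snoc_castSucc (α := fun _ => Ω) ω w j.succ
      rw [← Fin.castSucc_succ]
      exact this
    rw [e0, e1]
    simp only [e2]
    have e3 : cond p L (L (w 0)) ω = if L ω = L (w 0) then p ω / law p L (L (w 0)) else 0 := by
      unfold Pool.Agent.H49.Ent.cond
      split_ifs <;> rfl
    rw [e3]
    by_cases h : L ω = L (w 0)
    · rw [if_pos h, if_pos h.symm]
      ring
    · rw [if_neg h, if_neg (Ne.symm h)]
      ring
  · intro v _ hv
    rw [if_neg]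
    intro h
    apply hv
    simp only [Prod.mk.injEq] at h
    rw [← h.1, ← h.2, Fin.snoc_init_self]
  · intro h
    exact absurd (Finset.mem_univ _) h

/-- **The cost of a tuple.** -/
theorem tup_mi (hp : IsLaw p) (L : Ω → Λ) (T : Ω → τ) (N : ℕ) :
    MI (tup p L N) (fun v => L (v 0)) (fun v j => T (v j)) (fun _ => ()) ≤
      (N + 1) * MI p L T (fun _ => ()) := by
  induction N with
  | zero =>
    have h1 := Pool.OC.marg_mi (tup_marg hp.nonneg L 0 0) L T (fun _ => ())
    have h2 : MI (tup p L 0) (fun v => L (v 0)) (fun v j => T (v j)) (fun _ => ()) ≤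
        MI (tup p L 0) (fun v => L (v 0)) (fun v => T (v 0)) (fun _ => ()) := by
      refine Pool.OC.mi_shift (tup_nonneg hp.nonneg L 0) _ _ _ _ _ ?_ (fun _ _ _ _ _ => rfl)
      intro v v' _ _ h
      have h3 : T (v 0) = T (v' 0) := (Prod.ext_iff.1 h).1
      refine Prod.ext ?_ rfl
      funext j
      show T (v j) = T (v' j)
      rw [show j = 0 from Fin.ext (by omega), h3]
    push_cast
    linarith
  | succ N ih =>
    have h1 := cost_glue (tup_isLaw hp L N) hp (fun v => L (v 0)) L (tup_law hp.nonneg L N)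
      (fun v j => T (v j)) T
    have h2 := Pool.OC.marg_mi (tup_snoc hp.nonneg L N) (fun w => L (w.1 0))
      (fun w => ((fun j => T (w.1 j)), T w.2)) (fun _ => ())
    have h3 : MI (tup p L (N + 1)) (fun v => L (v 0)) (fun v j => T (v j)) (fun _ => ()) ≤
        MI (tup p L (N + 1)) (fun v => L (Fin.init v (0 : Fin (N + 1))))
          (fun v => ((fun j => T (Fin.init v j)), T (v (Fin.last (N + 1))))) (fun _ => ()) := by
      refine Pool.OC.mi_shift (tup_nonneg hp.nonneg L (N + 1)) _ _ _ _ _ ?_ (fun _ _ _ _ _ => rfl)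
      intro v v' _ _ h
      have h4 := (Prod.ext_iff.1 (Prod.ext_iff.1 h).1).1
      have h5 : T (v (Fin.last (N + 1))) = T (v' (Fin.last (N + 1))) :=
        (Prod.ext_iff.1 (Prod.ext_iff.1 h).1).2
      refine Prod.ext ?_ rfl
      funext j
      show T (v j) = T (v' j)
      refine Fin.lastCases h5 (fun i => ?_) j
      exact congrFun h4 i
    push_cast
    linarith

end Pool.SLO
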