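import Pool.Agent.H48.OC.Step
import Pool.Agent.H29.OC.Gds

/-!
# L1: the tangential position is spread in the cells

The cells `Cl s` are a label, the first digits of `y` (in dimension `k`) and of the dependent
numbers `b` (`n` of them). If in most cells `n` forms which span are almost constant, that is, `b`
is almost a linear function of `y` with a bounded slope, and `y` is full given the label, then `y`
is spread in most cells: no strip has a large probability.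
-/

set_option autoImplicit false

namespace Pool.SLO

open Finset Real
open Pool.Agent.H49.Ent Pool.Agent.H32.Dense Pool.STK Pool.KAF Pool.OCT

section

variable {k n : ℕ} {Ω T : Type} [Fintype Ω]

/-- The digits of `y`. -/
noncomputable def Yd (y : Ω → Fin k → ℝ) (s : ℕ) (ω : Ω) : Fin k → ℤ :=
  fun j => ⌊(2 : ℝ) ^ s * y ω j⌋

/-- The cells. -/
noncomputable def Cl (g : Ω → T) (y : Ω → Fin k → ℝ) (b : Ω → Fin n → ℝ) (s : ℕ) (ω : Ω) :
    T × (Fin k → ℤ) × (Fin n → ℤ) := (g ω, Yd y s ω, Yd b s ω)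

/-- Forms. -/
abbrev Frm (k n : ℕ) : Type := (Fin n → ℝ) × (Fin k → ℝ)

/-- The value of a form. -/
noncomputable def Frm.ev (q : Frm k n) (b : Fin n → ℝ) (y : Fin k → ℝ) : ℝ :=
  ∑ j, q.1 j * b j - ∑ j, q.2 j * y j

/-- The forms span. -/
def Spn (B : ℝ) (q : Fin n → Fin n → ℝ) : Prop :=
  ∃ W : Fin n → Fin n → ℝ, (∀ a j, |W a j| ≤ B) ∧
    (∀ a b, ∑ j, W a j * q j b = if a = b then 1 else 0) ∧
    (∀ i j, ∑ a, q i a * W a j = if i = j then 1 else 0)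

/-- The form `q` is almost constant on the cell of `ω`. -/
def Atm (p : Ω → ℝ) (g : Ω → T) (y : Ω → Fin k → ℝ) (b : Ω → Fin n → ℝ) (k₁ : ℕ) (e' : ℝ)
    (s : ℕ) (ω : Ω) (q : Frm k n) : Prop :=
  Pr (cond p (Cl g y b s) (Cl g y b s ω))
    {ω' | 1 / (2 : ℝ) ^ (s + k₁) < |q.ev (b ω') (y ω') - q.ev (b ω) (y ω)|} ≤ e'

/-- In the cell of `ω` the numbers `b` are almost linear functions of `y`, with a bounded
slope. -/
def Gd (B : ℝ) (p : Ω → ℝ) (g : Ω → T) (y : Ω → Fin k → ℝ) (b : Ω → Fin n → ℝ) (k₁ : ℕ)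
    (e' : ℝ) (s : ℕ) (ω : Ω) : Prop :=
  ∃ q : Fin n → Frm k n, Spn B (fun j => (q j).1) ∧ (∀ j, ‖(q j).2‖ ≤ 2) ∧
    ∀ j, Atm p g y b k₁ e' s ω (q j)

/-- The instance of the general data: everything is multiplied by `2 ^ s₀`, and `b` is divided by
`2 ^ m`. -/
noncomputable def dat (p : Ω → ℝ) (g : Ω → T) (y : Ω → Fin k → ℝ) (b : Ω → Fin n → ℝ)
    (s₀ m : ℕ) : Pool.OCG.Dat k n Ω (Frm k n) T where
  p := p
  w := fun _ _ _ => 0
  lab := g
  y := fun ω j => 2 ^ s₀ * y ω j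
  c := fun ω j => 2 ^ s₀ * b ω j / 2 ^ m
  v := fun q => q.1
  x := fun q j => q.2 j / 2 ^ m
  D := fun _ => 0
  m := m
  J := fun _ => ∅

variable {p : Ω → ℝ} (g : Ω → T) (y : Ω → Fin k → ℝ) (b : Ω → Fin n → ℝ) (s₀ m : ℕ)

omit [Fintype Ω] in
theorem dat_Y (s : ℕ) : (dat p g y b s₀ m).Y s = Yd y (s₀ + s) := by
  funext ω j
  show ⌊(2 : ℝ) ^ s * (2 ^ s₀ * y ω j)⌋ = ⌊(2 : ℝ) ^ (s₀ + s) * y ω j⌋
  congr 1
  rw [pow_add]
  ring

omit [Fintype Ω] in
theorem dat_C (s : ℕ) : (dat p g y b s₀ m).C s = Yd b (s₀ + s) := by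
  funext ω j
  show ⌊(2 : ℝ) ^ (m + s) * (2 ^ s₀ * b ω j / 2 ^ m)⌋ = ⌊(2 : ℝ) ^ (s₀ + s) * b ω j⌋
  congr 1
  rw [pow_add, pow_add]
  field_simp

omit [Fintype Ω] in
theorem dat_G (s : ℕ) (ω ω' : Ω) :
    (dat p g y b s₀ m).G s ω = (dat p g y b s₀ m).G s ω' ↔
      Cl g y b (s₀ + s) ω = Cl g y b (s₀ + s) ω' := by
  unfold Pool.OCG.Dat.G Cl
  rw [dat_Y, dat_C]
  simp only [Prod.mk.injEq]
  show ((g ω = g ω' ∧ _) ∧ _) ↔ (g ω = g ω' ∧ _ ∧ _)
  tauto

omit [Fintype Ω] in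
/-- The conditional laws only depend on the partition. -/
theorem cond_congr_fun [Fintype Ω] {S U : Type} (F : Ω → S) (G : Ω → U)
    (h : ∀ ω ω', F ω = F ω' ↔ G ω = G ω') (ω : Ω) :
    cond p F (F ω) = cond p G (G ω) := by
  classical
  funext ω'
  unfold Pool.Agent.H49.Ent.cond law
  have h1 : ∀ v, (F v = F ω) = (G v = G ω) := fun v => propext (h v ω)
  simp only [h1]

theorem dat_cond (s : ℕ) (ω : Ω) :
    cond p ((dat p g y b s₀ m).G s) ((dat p g y b s₀ m).G s ω) =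
      cond p (Cl g y b (s₀ + s)) (Cl g y b (s₀ + s) ω) :=
  cond_congr_fun _ _ (dat_G g y b s₀ m s) ω

theorem dat_good {B : ℝ} {k₁ : ℕ} {e' : ℝ} {s : ℕ} {ω : Ω}
    (h : Gd B p g y b k₁ e' (s₀ + s) ω) : (dat p g y b s₀ m).Good B k₁ e' s ω := by
  obtain ⟨q, h0, h1, h2⟩ := h
  refine ⟨q, h0, fun j => ?_, fun j => ?_⟩
  · show ‖(fun i => (q j).2 i / 2 ^ m : Fin k → ℝ)‖ ≤ 2 / 2 ^ m
    rw [pi_norm_le_iff_of_nonneg (by positivity)]
    intro i
    rw [norm_div, norm_pow, Real.norm_ofNat]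
    exact div_le_div_of_nonneg_right ((norm_le_pi_norm (q j).2 i).trans (h1 j)) (by positivity)
  · show Pr (cond p ((dat p g y b s₀ m).G s) ((dat p g y b s₀ m).G s ω)) _ ≤ e'
    rw [dat_cond g y b s₀ m]
    refine le_trans (le_of_eq ?_) (h2 j)
    congr 1
    ext ω'
    have e1 : (dat p g y b s₀ m).Z (q j) ω' - (dat p g y b s₀ m).Z (q j) ω =
        (2 ^ s₀ / 2 ^ m) * ((q j).ev (b ω') (y ω') - (q j).ev (b ω) (y ω)) := by
      unfold Pool.OCG.Dat.Z dat Frm.ev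
      simp only [mul_sub, Finset.mul_sum]
      have e2 : ∀ v : Ω, ∑ i, (q j).2 i / 2 ^ m * (2 ^ s₀ * y v i) =
          ∑ i, 2 ^ s₀ / 2 ^ m * ((q j).2 i * y v i) := by
        intro v
        exact Finset.sum_congr rfl fun i _ => by ring
      have e3 : ∀ v : Ω, ∑ i, (q j).1 i * (2 ^ s₀ * b v i / 2 ^ m) =
          ∑ i, 2 ^ s₀ / 2 ^ m * ((q j).1 i * b v i) := by
        intro v
        exact Finset.sum_congr rfl fun i _ => by ring
      rw [e2, e2, e3, e3]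
    show 1 / (2 : ℝ) ^ (m + s + k₁) <
        |(dat p g y b s₀ m).Z (q j) ω' - (dat p g y b s₀ m).Z (q j) ω| ↔
      1 / (2 : ℝ) ^ (s₀ + s + k₁) < |(q j).ev (b ω') (y ω') - (q j).ev (b ω) (y ω)|
    rw [e1, abs_mul, abs_of_pos (by positivity), pow_add (2 : ℝ) (m + s), pow_add (2 : ℝ) m,
      pow_add (2 : ℝ) (s₀ + s), pow_add (2 : ℝ) s₀]
    rw [div_lt_iff₀ (by positivity), div_lt_iff₀ (by positivity)]
    have e2 : 2 ^ s₀ / 2 ^ m * |(q j).ev (b ω') (y ω') - (q j).ev (b ω) (y ω)| *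
        (2 ^ m * 2 ^ s * 2 ^ k₁) =
        |(q j).ev (b ω') (y ω') - (q j).ev (b ω) (y ω)| * (2 ^ s₀ * 2 ^ s * 2 ^ k₁) := by
      field_simp
    rw [e2]

/-- The bound for the probability of the strips: from the deficit of the entropy. -/
noncomputable def Nb (p : Ω → ℝ) (g : Ω → T) (y : Ω → Fin k → ℝ) (b : Ω → Fin n → ℝ) (K s : ℕ)
    (ω : Ω) : ℝ :=
  ((k * K - H (cond p (Cl g y b s) (Cl g y b s ω)) (Yd y (s + K)) / Real.log 2) + k + 3) / K

theorem Nb_cell {K s : ℕ} {ω ω' : Ω} (h : Cl g y b s ω = Cl g y b s ω') :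
    Nb p g y b K s ω = Nb p g y b K s ω' := by
  unfold Nb
  rw [h]

theorem dat_def' (K s : ℕ) (ω : Ω) :
    (dat p g y b s₀ m).def' K s ω =
      k * K - H (cond p (Cl g y b (s₀ + s)) (Cl g y b (s₀ + s) ω)) (Yd y (s₀ + s + K)) /
        Real.log 2 := by
  unfold Pool.OCG.Dat.def' Pool.OCG.Dat.h
  rw [dat_Y, show (dat p g y b s₀ m).p = p from rfl, dat_cond g y b s₀ m, ← add_assoc]

/-- Strips in the cell of `ω`. -/
theorem strip (hp : IsLaw p) {K : ℕ} (hK : 1 ≤ K) (s : ℕ) {ω : Ω} (hω : 0 < p ω)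
    (ξ : Fin k → ℝ) (hξ : 0 < ‖ξ‖) :
    Pr (cond p (Cl g y b s) (Cl g y b s ω))
      {ω' | |∑ j, ξ j * (y ω' j - y ω j)| < ‖ξ‖ / 2 ^ (s + K)} ≤ Nb p g y b K s ω := by
  have h := (dat p g y b 0 0).slab_cell hp hK (s := s) (ω := ω) hω
    (e := (dat p g y b 0 0).def' K s ω) le_rfl ξ hξ
  rw [show (dat p g y b 0 0).p = p from rfl, dat_cond g y b 0 0, dat_def' g y b 0 0] at h
  have e1 : 0 + s = s := zero_add s
  simp only [e1] at h
  have e2 : ∀ v : Ω, ∀ j, (dat p g y b 0 0).y v j = y v j := by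
    intro v j
    show (2 : ℝ) ^ 0 * y v j = y v j
    ring
  simp only [e2] at h
  exact h

theorem Nb_nonneg (hp : IsLaw p) {K : ℕ} (hK : 1 ≤ K) (hk : 1 ≤ k) (s : ℕ) {ω : Ω}
    (hω : 0 < p ω) : 0 ≤ Nb p g y b K s ω := by
  refine le_trans ?_ (strip g y b hp hK s hω (fun _ => 1) ?_)
  · exact Pool.KAF.Pr_nonneg (Pool.KX.AVG.cond_law hp _ hω).nonneg _
  · obtain ⟨k', rfl⟩ : ∃ k', k = k' + 1 := ⟨k - 1, by omega⟩
    have h1 : ‖(fun _ : Fin (k' + 1) => (1 : ℝ)) 0‖ ≤ ‖(fun _ : Fin (k' + 1) => (1 : ℝ))‖ :=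
      norm_le_pi_norm (fun _ : Fin (k' + 1) => (1 : ℝ)) 0
    have h2 : ‖(fun _ : Fin (k' + 1) => (1 : ℝ)) 0‖ = 1 := by simp
    linarith

/-- **The cells are spread**, on average. -/
theorem spread (hp : IsLaw p) {B : ℝ} (hB : 0 ≤ B) {K k₁ : ℕ} (hK : 1 ≤ K) (hKk : K ≤ k₁)
    {e' : ℝ} (he' : 0 ≤ e')
    (hb : ∀ ω j, |2 ^ s₀ * b ω j| ≤ 2 ^ m) {X : ℕ} {io : ℝ}
    (hfull : ∀ r M, s₀ ≤ r → r ≤ M → M ≤ X → (k * ((M : ℝ) - r) - io) * Real.log 2 ≤
      CH p (Yd y M) (fun ω => (g ω, Yd y r ω))) (M : ℕ) (hX : s₀ + M * K + K ≤ X) :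
    ∑ s ∈ Finset.Ico s₀ (s₀ + M * K), Ex p (Nb p g y b K s) ≤
      (io + n * (m + K + 2)) +
        M * (n * (1 + Real.log (2 * n * B + 4 * n * B * k + 2) / Real.log 2) + k + 3) +
        M * K * (n * (n * e')) +
        n * ∑ s ∈ Finset.Ico s₀ (s₀ + M * K), Pr p {ω | ¬ Gd B p g y b k₁ e' s ω} := by
  have hK0 : (0 : ℝ) < K := by exact_mod_cast hK
  have h1 := (dat p g y b s₀ m).telescope hp (fun ω j => by
      show |2 ^ s₀ * b ω j / 2 ^ m| ≤ 1
      rw [abs_div, abs_of_pos (show (0 : ℝ) < 2 ^ m by positivity), div_le_one (by positivity)]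
      exact hb ω j) (B := B) hB hKk he' (X := X - s₀) (io := io)
    (by
      intro r M' hr hM'
      rw [dat_Y, dat_Y]
      have e1 := hfull (s₀ + r) (s₀ + M') (by omega) (by omega) (by omega)
      have e2 : (((s₀ + M' : ℕ) : ℝ) - ((s₀ + r : ℕ) : ℝ)) = (M' : ℝ) - r := by
        push_cast; ring
      rw [e2] at e1
      exact e1) M (by omega)
  have h2 : ∑ s ∈ Finset.Ico s₀ (s₀ + M * K), Ex p (Nb p g y b K s) =
      (∑ s ∈ range (M * K), Ex p ((dat p g y b s₀ m).def' K s)) / K + M * (k + 3) := by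
    rw [Finset.sum_Ico_eq_sum_range, add_tsub_cancel_left]
    have e1 : ∀ s ∈ range (M * K), Ex p (Nb p g y b K (s₀ + s)) =
        (Ex p ((dat p g y b s₀ m).def' K s) + (k + 3)) / K := by
      intro s _
      have e2 : Nb p g y b K (s₀ + s) = fun ω => (K : ℝ)⁻¹ *
          ((dat p g y b s₀ m).def' K s ω + (k + 3)) := by
        funext ω
        rw [dat_def' g y b s₀ m]
        unfold Nb
        rw [div_eq_inv_mul]
        ring
      rw [e2, Ex_smul, Ex_add, Ex_const hp.sum_one, div_eq_inv_mul]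
    rw [Finset.sum_congr rfl e1, ← Finset.sum_div, Finset.sum_add_distrib, Finset.sum_const,
      card_range, nsmul_eq_mul]
    push_cast
    field_simp
  have h3 : ∑ s ∈ range (M * K), Pr p {ω | ¬ (dat p g y b s₀ m).Good B k₁ e' s ω} ≤
      ∑ s ∈ Finset.Ico s₀ (s₀ + M * K), Pr p {ω | ¬ Gd B p g y b k₁ e' s ω} := by
    rw [Finset.sum_Ico_eq_sum_range, add_tsub_cancel_left]
    refine Finset.sum_le_sum fun s _ => Pool.KAF.Pr_mono hp.nonneg fun ω _ h h' => ?_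
    exact h (dat_good g y b s₀ m h')
  rw [show (dat p g y b s₀ m).p = p from rfl, show (dat p g y b s₀ m).m = m from rfl] at h1
  rw [h2]
  have h4 : (∑ s ∈ range (M * K), Ex p ((dat p g y b s₀ m).def' K s)) / K ≤
      (io + n * (m + K + 2)) +
        M * (n * (1 + Real.log (2 * n * B + 4 * n * B * k + 2) / Real.log 2)) +
        M * K * (n * (n * e')) +
        n * ∑ s ∈ range (M * K), Pr p {ω | ¬ (dat p g y b s₀ m).Good B k₁ e' s ω} := by
    rw [div_le_iff₀ hK0]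
    refine h1.trans (le_of_eq ?_)
    ring
  have h5 := mul_le_mul_of_nonneg_left h3 (show (0 : ℝ) ≤ n from Nat.cast_nonneg n)
  have h6 : (M : ℝ) * (n * (1 + Real.log (2 * n * B + 4 * n * B * k + 2) / Real.log 2) + k + 3) =
      M * (n * (1 + Real.log (2 * n * B + 4 * n * B * k + 2) / Real.log 2)) + M * (k + 3) := by
    ring
  linarith

end

end Pool.SLO
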