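import Pool.Agent.H87.OC.Cost

/-!
# L1: tuples of times, conditional laws, digits
-/

set_option autoImplicit false

namespace Pool.SLO

open Finset Real
open Pool.Agent.H49.Ent Pool.Agent.H32.Dense Pool.STK Pool.KAF Pool.KVA

section

variable {Ω W : Type} [Fintype Ω] [Fintype W] {Λ X Y S U V : Type} {p : Ω → ℝ} {q : W → ℝ}

/-- **Two tuples of times over one line**: the total information on the line is at most the sum. -/
theorem cost_glue (hq : IsLaw q) (hp : IsLaw p) (l₁ : W → Λ) (l₂ : Ω → Λ)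
    (hl : ∀ z, law q l₁ z = law p l₂ z) (x : W → X) (t : Ω → Y) :
    MI (glue q p l₁ l₂) (fun w => l₁ w.1) (fun w => (x w.1, t w.2)) (fun _ => ()) ≤
      MI q l₁ x (fun _ => ()) + MI p l₂ t (fun _ => ()) := by
  set g := glue q p l₁ l₂ with hg
  have hg0 : ∀ w, 0 ≤ g w := fun w => glue_nonneg hq.nonneg hp.nonneg w
  have hf : Marg g q (fun w => w.1) := marg_fst hq.nonneg hl
  have hs : Marg g p (fun w => w.2) := marg_snd hp.nonneg hl
  rw [Pool.OC.mi_chain hg0]
  have h1 : MI g (fun w => l₁ w.1) (fun w => x w.1) (fun _ => ()) = MI q l₁ x (fun _ => ()) :=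
    Pool.OC.marg_mi hf l₁ x (fun _ => ())
  have h2 : MI g (fun w => l₁ w.1) (fun w => t w.2) (fun w => (x w.1, ())) ≤
      MI p l₂ t (fun _ => ()) := by
    rw [Pool.OC.mi_comm _ _ _ hg0, CLU.MI_eq hg0, Pool.OC.mi_comm _ _ _ hp.nonneg,
      CLU.MI_eq hp.nonneg]
    have h3 : CH g (fun w => t w.2) (fun w => (x w.1, ())) ≤ CH p t (fun _ => ()) := by
      rw [← hs.CH t (fun _ => ())]
      exact CH_mono_cond hg0 fun _ _ _ _ _ => rfl
    have h4 : CH p t (fun ω => (l₂ ω, ())) ≤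
        CH g (fun w => t w.2) (fun w => (l₁ w.1, (x w.1, ()))) := by
      have h5 := CH_glue_snd (p₁ := q) (p₂ := p) (Z₁ := l₁) (Z₂ := l₂) hq.nonneg hp.nonneg hl t
        (Y := fun ω => (l₂ ω, ())) x (fun _ _ _ _ h => (Prod.ext_iff.1 h).1)
      rw [← h5]
      refine CH_mono_cond hg0 ?_
      intro w w' hw hw' h
      obtain ⟨a1, a2, a3⟩ := (glue_pos_iff hq.nonneg hp.nonneg w).mp hw
      obtain ⟨b1, b2, b3⟩ := (glue_pos_iff hq.nonneg hp.nonneg w').mp hw'
      have h6 : l₂ w.2 = l₂ w'.2 := (Prod.ext_iff.1 (Prod.ext_iff.1 h).1).1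
      have h7 : x w.1 = x w'.1 := (Prod.ext_iff.1 h).2
      show (l₁ w.1, x w.1, ()) = (l₁ w'.1, x w'.1, ())
      rw [a3, b3, h6, h7]
    linarith
  linarith

/-- Probabilities of equivalent events. -/
theorem pr_congr (hp : ∀ ω, 0 ≤ p ω) {A B : Set Ω} (h : ∀ ω, 0 < p ω → (ω ∈ A ↔ ω ∈ B)) :
    Pr p A = Pr p B := by
  classical
  rw [Pr_eq, Pr_eq]
  refine Finset.sum_congr rfl fun ω _ => ?_
  rcases (hp ω).eq_or_lt with h0 | h0
  · rw [← h0]
    simp
  · have h1 := h ω h0
    by_cases h2 : ω ∈ A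
    · rw [if_pos h2, if_pos (h1.1 h2)]
    · rw [if_neg h2, if_neg fun h3 => h2 (h1.2 h3)]

/-- Probabilities of pairs of copies. -/
theorem pr_dbl (p : Ω → ℝ) (b : Ω → S) (E : Set (Ω × Ω)) :
    Pr (dbl p b) E = Ex p (fun ω => Pr (cond p b (b ω)) {v | (ω, v) ∈ E}) := by
  classical
  have h0 : ∀ ω v, dbl p b (ω, v) = p ω * cond p b (b ω) v := by
    intro ω v
    unfold dbl glue Pool.Agent.H49.Ent.cond
    by_cases h : b ω = b v
    · rw [if_pos h, if_pos h.symm]
      ring
    · rw [if_neg h, if_neg (Ne.symm h), mul_zero]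
  rw [Pr_eq]
  unfold Ex
  rw [Fintype.sum_prod_type]
  refine Finset.sum_congr rfl fun ω _ => ?_
  show _ = p ω * Pr (cond p b (b ω)) {v | (ω, v) ∈ E}
  rw [Pr_eq, Finset.mul_sum]
  refine Finset.sum_congr rfl fun v _ => ?_
  by_cases h : (ω, v) ∈ E
  · rw [if_pos h, if_pos (show v ∈ {v | (ω, v) ∈ E} from h), h0]
  · rw [if_neg h, if_neg (show v ∉ {v | (ω, v) ∈ E} from h), mul_zero]

/-- Conditional probabilities of a marginal. -/
theorem pr_cond_marg {f : W → Ω} (h : Marg q p f) (hq : ∀ w, 0 ≤ q w) (F : W → S) (G : Ω → U)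
    {w : W} (hFG : ∀ w', 0 < q w' → (F w' = F w ↔ G (f w') = G (f w))) (E : Set Ω) :
    Pr (cond q F (F w)) {w' | f w' ∈ E} = Pr (cond p G (G (f w))) E := by
  classical
  have hnum : ∀ E : Set Ω, ∑ w', (if F w' = F w then (if f w' ∈ E then q w' else 0) else 0) =
      ∑ v, (if G v = G (f w) then (if v ∈ E then p v else 0) else 0) := by
    intro E
    have h1 := h.ex (fun v => if G v = G (f w) then (if v ∈ E then (1 : ℝ) else 0) else 0)
    unfold Ex at h1
    have e1 : ∀ w', q w' * (if G (f w') = G (f w) then (if f w' ∈ E then (1 : ℝ) else 0) else 0) =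
        if F w' = F w then (if f w' ∈ E then q w' else 0) else 0 := by
      intro w'
      rcases (hq w').eq_or_lt with h0 | h0
      · rw [← h0]
        simp
      · by_cases h2 : F w' = F w
        · rw [if_pos h2, if_pos ((hFG w' h0).1 h2)]
          split_ifs <;> simp
        · rw [if_neg h2, if_neg fun h3 => h2 ((hFG w' h0).2 h3), mul_zero]
    have e2 : ∀ v, p v * (if G v = G (f w) then (if v ∈ E then (1 : ℝ) else 0) else 0) =
        if G v = G (f w) then (if v ∈ E then p v else 0) else 0 := by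
      intro v
      split_ifs <;> simp
    simp_rw [e1, e2] at h1
    exact h1
  have hlaw : law q F (F w) = law p G (G (f w)) := by
    have h1 := hnum Set.univ
    simp only [Set.mem_univ, if_true] at h1
    unfold law
    exact h1
  rw [Pr_eq, Pr_eq]
  have e1 : ∀ w', (if w' ∈ {w' | f w' ∈ E} then cond q F (F w) w' else 0) =
      (if F w' = F w then (if f w' ∈ E then q w' else 0) else 0) / law q F (F w) := by
    intro w'
    unfold Pool.Agent.H49.Ent.cond
    by_cases h1 : f w' ∈ E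
    · rw [if_pos (show w' ∈ {w' | f w' ∈ E} from h1), if_pos h1]
      split_ifs <;> simp
    · rw [if_neg (show w' ∉ {w' | f w' ∈ E} from h1), if_neg h1]
      split_ifs <;> simp
  have e2 : ∀ v, (if v ∈ E then cond p G (G (f w)) v else 0) =
      (if G v = G (f w) then (if v ∈ E then p v else 0) else 0) / law p G (G (f w)) := by
    intro v
    unfold Pool.Agent.H49.Ent.cond
    by_cases h1 : v ∈ E
    · rw [if_pos h1, if_pos h1]
      split_ifs <;> simp
    · rw [if_neg h1, if_neg h1]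
      split_ifs <;> simp
  rw [Finset.sum_congr rfl fun w' _ => e1 w', Finset.sum_congr rfl fun v _ => e2 v,
    ← Finset.sum_div, ← Finset.sum_div, hnum, hlaw]

end

/-- One more digit. -/
theorem fl_half (e : ℤ) (x : ℝ) : ⌊(2 : ℝ) ^ (e + 1) * x⌋ / 2 = ⌊(2 : ℝ) ^ e * x⌋ := by
  have h1 : (2 : ℝ) ^ (e + 1) * x = 2 * ((2 : ℝ) ^ e * x) := by
    rw [zpow_add₀ (by norm_num), zpow_one]
    ring
  rw [h1]
  set z := (2 : ℝ) ^ e * x
  have h2 := Int.floor_le z
  have h3 := Int.lt_floor_add_one z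
  have h4 : 2 * ⌊z⌋ ≤ ⌊2 * z⌋ := by
    rw [Int.le_floor]
    push_cast
    linarith
  have h5 : ⌊2 * z⌋ < 2 * ⌊z⌋ + 2 := by
    rw [Int.floor_lt]
    push_cast
    linarith
  omega

/-- The parity of an integer. -/
def par (z : ℤ) : Fin 2 := if z % 2 = 0 then 0 else 1

theorem par_inj {z z' : ℤ} (h1 : z / 2 = z' / 2) (h2 : par z = par z') : z = z' := by
  unfold par at h2
  split_ifs at h2 with h3 h4 h4
  · omega
  · exact absurd h2 (by decide)
  · exact absurd h2 (by decide)
  · omega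

end Pool.SLO
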